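import Pool.Agent.Work.MP_7b0bad_ag.FA.Stmts
import Pool.Agent.Work.MP_7b0bad_ag.AllH
import Pool.Agent.Work.MP_7b0bad_ag.SV.LAll
import Pool.Agent.Work.MP_7b0bad_ag.MW.WLift

set_option autoImplicit false

/-!
# Block FA, item FGen (helper21)
-/

namespace MP7b0bad.FA

/-- elements normalising `P` normalise `Γ` if `Γ` is stable under conjugation by them -/
theorem FGen_norm {G : Type} [Group G] (P Γ : Subgroup G)
    (h : ∀ c : G, (∀ q ∈ P, c * q * c⁻¹ ∈ P) → ∀ x ∈ Γ, c * x * c⁻¹ ∈ Γ) :
    Subgroup.normalizer (P : Set G) ≤ Subgroup.normalizer (Γ : Set G) := by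
  intro c hc
  have h1 : ∀ d ∈ Subgroup.normalizer (P : Set G), ∀ x ∈ Γ, d * x * d⁻¹ ∈ Γ := by
    intro d hd
    exact h d fun q hq => (Subgroup.mem_normalizer_iff.1 hd q).1 hq
  rw [Subgroup.mem_normalizer_iff]
  intro x
  constructor
  · exact h1 c hc x
  · intro hx
    have h2 := h1 c⁻¹ (Subgroup.inv_mem _ hc) _ hx
    have e : c⁻¹ * (c * x * c⁻¹) * c⁻¹⁻¹ = x := by group
    rwa [e] at h2

/-- transport of `Rel` from an isomorphic group for which `Occurs` is known -/
theorem FGen_iso (hRel : MW.WRel) (p : ℕ) [Fact p.Prime] (k : Type) [Field k] [IsAlgClosed k]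
    [CharP k p] (Y Z : Type) [Group Y] [Group Z] [Finite Z] (e : Y ≃* Z)
    (h : ∀ S : Subgroup Z, IsPGroup p S → Subgroup.normalClosure (S : Set Z) = ⊤ → Occurs k Z S)
    (T : Subgroup Y) (hT : IsPGroup p T) (hn : Subgroup.normalClosure (T : Set Y) = ⊤) :
    Rel k Y T := by
  have h1 : Subgroup.normalClosure ((T.map e.toMonoidHom : Subgroup Z) : Set Z) = ⊤ := by
    have h5 := Subgroup.map_normalClosure (T : Set Y) e.toMonoidHom e.surjective
    rw [hn] at h5
    rw [Subgroup.coe_map, ← h5, ← MonoidHom.range_eq_map]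
    exact MonoidHom.range_eq_top.2 e.surjective
  have h2 : Rel k Z (T.map e.toMonoidHom) :=
    (all_T0 k Z _).2 (h _ (hT.map _) h1)
  have h3 := (hRel k p).rel.iso Z Y e.symm _ h2
  have h4 : (T.map e.toMonoidHom).map e.symm.toMonoidHom = T := by
    ext y
    constructor
    · rintro ⟨z, ⟨w, hw, rfl⟩, rfl⟩
      have h6 : e.symm.toMonoidHom (e.toMonoidHom w) = w := e.symm_apply_apply w
      rw [h6]
      exact hw
    · intro hy
      exact ⟨e y, ⟨y, hy, rfl⟩, e.symm_apply_apply y⟩
  rwa [h4] at h3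

theorem prf_FGen (hWild : FWild) (hNor : MW.WNor) (hRel : MW.WRel) (hSL : SL.SLFin) : FGen := by
  intro p _ k _ _ _ G _ _ P hP hn h
  have hR := hRel k p
  obtain ⟨hPΓ, hGam, hTop, -, hconj, -⟩ :=
    hNor p (fun (G : Type) [Group G] (P : Subgroup G) => Rel k G P) hR.rel G P hP
  set Γ := MW.GamR (fun (G : Type) [Group G] (P : Subgroup G) => Rel k G P) P with hΓ
  have hle : Subgroup.normalizer (P : Set G) ≤ Subgroup.normalizer (Γ : Set G) :=
    FGen_norm P Γ hconj
  have hK : Subgroup.normalizer (Γ : Set G) = ⊤ := by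
    rw [eq_top_iff, ← h]
    refine sSup_le ?_
    rintro Y (hY | ⟨hY, hPY⟩ | ⟨hY, Q, hQP, hQY, hncl⟩)
    · exact hY.trans hle
    · have hinv : ∀ q ∈ P, ∀ a ∈ Y, q * a * q⁻¹ ∈ Y := fun q hq a ha =>
        (Subgroup.mem_normalizer_iff.1 (hPY hq) a).1 ha
      intro a ha
      obtain ⟨h1, -, -⟩ := all_GCop p G Y P hY hP hinv
      obtain ⟨d, hd, c, -, hc, hdc⟩ := h1 a ha
      rw [hdc]
      refine Subgroup.mul_mem _ ?_ ?_
      · exact Subgroup.le_normalizer (hGam (HGenM_le all_GCop p _ _ hY hP hinv hd))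
      · apply hle
        rw [Subgroup.mem_normalizer_iff]
        intro x
        constructor
        · intro hx
          rw [hc x hx, mul_inv_cancel_right]
          exact hx
        · intro hx
          have h2 := hc _ hx
          have h3 : c * x * c⁻¹ = x := by
            have h4 : c * (c * x * c⁻¹) = c * x := by
              rw [h2, inv_mul_cancel_right]
            exact mul_left_cancel h4
          rwa [h3] at hx
    · have hQp : IsPGroup p (Q.subgroupOf Y) :=
        (hP.to_le hQP).of_injective (Subgroup.subgroupOfEquivOfLe hQY).toMonoidHom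
          (Subgroup.subgroupOfEquivOfLe hQY).injective
      have hQn : Subgroup.normalClosure ((Q.subgroupOf Y : Subgroup Y) : Set Y) = ⊤ :=
        HCrit_ncl Y Q hQY hncl
      have hYΓ : Y ≤ Γ := by
        have key : Rel k Y (Q.subgroupOf Y) → Y ≤ Γ := fun hr =>
          le_sSup ⟨Q, hQP, hQY, hr⟩
        rcases hY with hY | hY | hY | ⟨F, hF, hFf, n, i, hi, hin, hd, hY⟩
        · exact key (hWild p k Y _ hQp hQn fun h2 => absurd hY h2)
        · have h6 : Y ≤ Gam p P := le_sSup ⟨Q, hQP, hQY, hncl, hY⟩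
          exact h6.trans hGam
        · exact key (hWild p k Y _ hQp hQn fun _ => hY)
        · have h5 := hSL k p F n i hi hin hd
          rcases hY with hY | hY
          · obtain ⟨e⟩ := hY
            have : Finite (Matrix.SpecialLinearGroup (Fin n) F) := Finite.of_equiv Y e.toEquiv
            exact key (FGen_iso hRel p k Y _ e h5.1 _ hQp hQn)
          · obtain ⟨e⟩ := hY
            have : Finite (Matrix.ProjectiveSpecialLinearGroup (Fin n) F) :=
              Finite.of_equiv Y e.toEquiv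
            exact key (FGen_iso hRel p k Y _ e h5.2 _ hQp hQn)
      exact hYΓ.trans Subgroup.le_normalizer
  have hN : Γ.Normal := Subgroup.normalizer_eq_top_iff.1 hK
  refine hTop ?_
  rw [eq_top_iff, ← hn]
  exact Subgroup.normalClosure_le_normal hPΓ

end MP7b0bad.FA
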