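import Pool.Agent.Work.MP_7b0bad_ag.FA.Stmts
import Pool.Agent.Work.MP_7b0bad_ag.MT.MFam
import Pool.Agent.Work.MP_7b0bad_ag.MT.MChar2

set_option autoImplicit false

/-!
# Block FA, item FTame (helper18)
-/

namespace MP7b0bad.FA

theorem prf_FTame (hGen : FGen) (hMRz : MT.MRz) (hMFam : MT.MFam) (hMSolv : MT.MSolv) : FTame := by
  intro p _ k _ _ _ G _ _ P c hP hn hsup hcomm hc
  have hRel : Rel k G P := hGen p k G P hP hn hsup
  have hRz1 : MT.Rz k P (1 : G) ⊤ := by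
    refine ⟨le_top, ?_⟩
    rw [Subgroup.zpowers_one_eq_bot, sup_bot_eq]
    exact MT.MChar2_toTop k G P hRel
  have hone : MT.Nz p P (1 : G) := MT.mfam_nz_one p P hP
  -- the pieces
  have hpiece : ∀ i : Fin c.length, ∃ Q H : Subgroup G, Q ≤ P ∧ MT.Nz p Q (c.get i) ∧
      MT.Rz k Q (c.get i) H := by
    intro i
    obtain ⟨ho, _, Q, H, hQP, hQ, hle, h⟩ := hc (c.get i) (List.get_mem c i)
    have hNz : MT.Nz p Q (c.get i) := ⟨IsPGroup.to_le hP hQP, ho, hQ⟩
    refine ⟨Q, H, hQP, hNz, ?_⟩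
    rcases h with ⟨hsolv, hcl⟩ | h
    · exact hMSolv k p G Q H (c.get i) hNz hle hsolv hcl
    · exact ⟨hle, h⟩
  choose Q H hQP hNzQ hRz using hpiece
  have hNzP : ∀ i : Fin c.length, MT.Nz p P (c.get i) := fun i =>
    ⟨hP, (hc (c.get i) (List.get_mem c i)).1, (hc (c.get i) (List.get_mem c i)).2.1⟩
  have hfam := hMFam k p G P c.length c.get Q H hP hNzP hNzQ hQP
    (fun i j => hcomm _ (List.get_mem c i) _ (List.get_mem c j)) hRz
  rw [List.ofFn_get] at hfam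
  have hNzc : MT.Nz p P c.prod := by
    refine MT.mfam_list p P hP c ?_ ?_
    · intro a ha
      exact ⟨hP, (hc a ha).1, (hc a ha).2.1⟩
    · intro a ha b hb
      exact hcomm a ha b hb
  have h := hMRz k p G P P P (P ⊔ ⨆ i, H i) ⊤ c.prod 1 hNzc hone hNzc hone le_rfl le_rfl
    (by rw [mul_one, one_mul]) hfam hRz1
  rw [mul_one, sup_top_eq] at h
  exact MT.MChar2_ofTop k G _ h.2

end MP7b0bad.FA
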