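import Pool.Agent.Work.MP_7b0bad_ag.FA.FWild
import Pool.Agent.Work.MP_7b0bad_ag.FA.FGen
import Pool.Agent.Work.MP_7b0bad_ag.FA.FTame
import Pool.Agent.Work.MP_7b0bad_ag.MT.All
import Pool.Agent.Work.MP_7b0bad_ag.MW.All
import Pool.Agent.Work.MP_7b0bad_ag.SL.All

set_option autoImplicit false

/-!
# Block FA: the results of the block
-/

namespace MP7b0bad.FA

theorem all_FWild : FWild :=
  prf_FWild MW.all_WRed MW.all_WAlt MW.all_WRel MW.all_WSd MW.all_WNor SL.all_SLSd SL.all_SLQuo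
    SL.all_PSStar

theorem all_FGen : FGen := prf_FGen all_FWild MW.all_WNor MW.all_WRel SL.all_SLFin

theorem all_FTame : FTame := prf_FTame all_FGen MT.all_MRz MT.all_MFam MT.all_MSolv

end MP7b0bad.FA
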