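import Pool.Agent.Work.MP_7b0bad_ag.FA.Stmts
import Pool.Agent.Work.MP_7b0bad_ag.MW.WFin

set_option autoImplicit false

/-!
# Block FA, item FWild (helper76)
-/

namespace MP7b0bad.FA

/-- a finite field whose order is divisible by `p` has characteristic `p` -/
theorem FWild_char (p : ℕ) (hp : p.Prime) (F : Type) [Field F] [Finite F]
    (h : p ∣ Nat.card F) : CharP F p := by
  have := Fintype.ofFinite F
  obtain ⟨q, hq⟩ := CharP.exists F
  obtain ⟨n, hqp, hc⟩ := FiniteField.card F q
  rw [Nat.card_eq_fintype_card, hc] at h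
  have h1 : p ∣ q := hp.dvd_of_dvd_pow h
  have h2 : p = q := (Nat.prime_dvd_prime_iff_eq hp hqp).1 h1
  subst h2
  exact hq

theorem prf_FWild (hRed : MW.WRed) (hAlt : MW.WAlt) (hRel : MW.WRel) (hSd : MW.WSd)
    (hNor : MW.WNor) (hSdL : SL.SLSd) (hQuo : SL.SLQuo) (hStar : SL.PSStar) : FWild := by
  intro p _ k _ _ _ G _ _ P hP hn h
  have hp : p.Prime := Fact.out
  by_cases h2 : p = 2
  · subst h2
    exact all_HCrit 2 (fun (G : Type) [Group G] (P : Subgroup G) => Rel k G P) (hRel k 2).rel
      G P hP (LF.all_fin2 G P hP hn)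
  · refine hRed p (fun (G : Type) [Group G] (P : Subgroup G) => Rel k G P) (hRel k p) G P hP hn ?_
    intro K _ N L hN hLN hLN' hs hpL hab
    have hR := (hRel k p).rel
    rcases h h2 K N L hN hLN hLN' hs hpL hab with h1 | ⟨n, hn5, ⟨e⟩⟩ | ⟨F, hF, hFf, hpF, ⟨e⟩⟩
    · exact MW.WFin_star hNor hR _ (prf_HGenM all_HNor all_GCop p L hs h1)
    · by_cases h3 : p = 3
      · subst h3
        exact MW.WFin_star hNor hR _ (HRedM_starIso _ _ e.symm (all_HAlt3 n hn5).2)
      · have h5 : 5 ≤ p := by
          have h4 : p ≠ 4 := by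
            rintro rfl
            exact absurd hp (by decide)
          have := hp.two_le
          omega
        exact MW.WFin_iso _ _ e.symm (hAlt p h5 _ (hRel k p) (hSd k p h5) n hn5)
    · have := hs
      have hsF : IsSimpleGroup (Matrix.ProjectiveSpecialLinearGroup (Fin 2) F) := by
        have : Nontrivial (Matrix.ProjectiveSpecialLinearGroup (Fin 2) F) :=
          e.symm.toEquiv.nontrivial
        exact IsSimpleGroup.isSimpleGroup_of_surjective e.toMonoidHom e.surjective
      rcases hp.dvd_mul.1 hpF with hpF | hpF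
      · have : CharP F p := FWild_char p hp F hpF
        exact MW.WFin_iso _ _ e.symm
          (hStar p _ h2 (hRel k p) (hQuo k p) (hSdL k p) F hsF)
      · have h3 : InvGen p (Matrix.ProjectiveSpecialLinearGroup (Fin 2) F) :=
          prf_HPSL3 prf_HPSL1 prf_HPSL2 p h2 F hpF
        have : Finite (Matrix.ProjectiveSpecialLinearGroup (Fin 2) F) := Finite.of_equiv L e.toEquiv
        exact MW.WFin_star hNor hR _
          (HRedM_starIso _ _ e.symm (prf_HGenM all_HNor all_GCop p _ hsF h3))

end MP7b0bad.FA
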