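import Pool.Agent.Work.MP_7b0bad_ag.FA.KP

set_option autoImplicit false

/-!
# Item KCF: the hand-in `CompositionFactors` is a special case of `KnownPieces`
-/

namespace MP7b0bad.KP

/-- `InvariantGeneration` is invariant under isomorphisms -/
theorem KCF_inv {p : ℕ} {L L' : Type} [Group L] [Group L'] (e : L ≃* L')
    (h : InvariantGeneration p L') : InvariantGeneration p L := by
  intro φ hφ hφ1
  have hit : ∀ (n : ℕ) (x : L'), (e.symm.trans (φ.trans e))^[n] x = e (φ^[n] (e.symm x)) := by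
    intro n
    induction n with
    | zero => intro x; simp
    | succ n ih =>
        intro x
        rw [Function.iterate_succ_apply', Function.iterate_succ_apply', ih]
        simp
  have h1 := h (e.symm.trans (φ.trans e)) (fun x => by rw [hit, hφ]; simp) (by
    obtain ⟨x, hx⟩ := hφ1
    refine ⟨e x, fun h2 => hx ?_⟩
    simpa using h2)
  rw [eq_top_iff]
  intro x _
  have h2 : e x ∈ Subgroup.closure {x : L' | (e.symm.trans (φ.trans e)) x = x ∨
      ∃ A : Subgroup L', ¬ p ∣ Nat.card A ∧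
        (∀ a ∈ A, (e.symm.trans (φ.trans e)) a ∈ A) ∧ x ∈ A} := by
    rw [h1]
    trivial
  have h3 : Subgroup.closure {x : L' | (e.symm.trans (φ.trans e)) x = x ∨
      ∃ A : Subgroup L', ¬ p ∣ Nat.card A ∧
        (∀ a ∈ A, (e.symm.trans (φ.trans e)) a ∈ A) ∧ x ∈ A} ≤
      (Subgroup.closure {x : L | φ x = x ∨ ∃ A : Subgroup L, ¬ p ∣ Nat.card A ∧
        (∀ a ∈ A, φ a ∈ A) ∧ x ∈ A}).comap e.symm.toMonoidHom := by
    rw [Subgroup.closure_le]
    rintro y (hy | ⟨A, hA1, hA2, hA3⟩)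
    · refine Subgroup.subset_closure (Or.inl ?_)
      have : e (φ (e.symm y)) = y := hy
      have h7 := congrArg e.symm this
      rw [e.symm_apply_apply] at h7
      exact h7
    · refine Subgroup.subset_closure (Or.inr ⟨A.comap e.toMonoidHom, ?_, ?_, ?_⟩)
      · have hc : Nat.card (A.comap e.toMonoidHom) = Nat.card A :=
          Nat.card_congr (e.toEquiv.subtypeEquiv fun a => Iff.rfl)
        rw [hc]
        exact hA1
      · intro a ha
        have h4 := hA2 (e a) ha
        show e (φ a) ∈ A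
        simpa using h4
      · show e (e.symm y) ∈ A
        rwa [e.apply_symm_apply]
  have h5 := h3 h2
  have h6 : e.symm (e x) ∈ Subgroup.closure {x : L | φ x = x ∨ ∃ A : Subgroup L,
    ¬ p ∣ Nat.card A ∧ (∀ a ∈ A, φ a ∈ A) ∧ x ∈ A} := h5
  rwa [e.symm_apply_apply] at h6

theorem KCF_cov {p : ℕ} {L L' : Type} [Group L] [Group L'] (e : L ≃* L') (h : Covered p L') :
    Covered p L := by
  rcases h with h | ⟨n, hn, ⟨f⟩⟩ | ⟨F, hF, hFf, hp, ⟨f⟩⟩
  · exact Or.inl (KCF_inv e h)
  · exact Or.inr (Or.inl ⟨n, hn, ⟨e.trans f⟩⟩)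
  · exact Or.inr (Or.inr ⟨F, hF, hFf, hp, ⟨e.trans f⟩⟩)

theorem KCF_old {p : ℕ} (hp2 : p ≠ 2) {L : Type} [Group L] (h : OldCovered p L) : Covered p L := by
  rcases h with h | ⟨-, h⟩ | ⟨-, F, hF, hFf, hp, hf⟩ | ⟨h, -⟩
  · exact Or.inl h
  · exact Or.inr (Or.inl h)
  · exact Or.inr (Or.inr ⟨F, hF, hFf, hp.mul_left _, hf⟩)
  · exact absurd h hp2

/-- transfer of the condition on the composition factors along an isomorphism -/
theorem KCF_fac {p : ℕ} (hp2 : p ≠ 2) {Y G : Type} [Group Y] [Group G] (e : Y ≃* G)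
    (h : ∀ (K : Subgroup G) [K.Normal] (N L : Subgroup (G ⧸ K)), N.Normal → L ≤ N →
        (L.subgroupOf N).Normal → IsSimpleGroup L → p ∣ Nat.card L →
        (∃ a b : L, a * b ≠ b * a) → OldCovered p L) : FactorsCovered p Y := by
  intro K hK N L hN hLN hLn hLs hpL hab
  have hK' : (K.map e.toMonoidHom).Normal := hK.map e.toMonoidHom e.surjective
  let E : (Y ⧸ K) ≃* (G ⧸ K.map e.toMonoidHom) :=
    QuotientGroup.congr K (K.map e.toMonoidHom) e rfl
  let f : L ≃* L.map E.toMonoidHom := E.subgroupMap L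
  have hN' : (N.map E.toMonoidHom).Normal := hN.map E.toMonoidHom E.surjective
  have hLN' : L.map E.toMonoidHom ≤ N.map E.toMonoidHom := Subgroup.map_mono hLN
  have hLn' : ((L.map E.toMonoidHom).subgroupOf (N.map E.toMonoidHom)).Normal := by
    rw [Subgroup.normal_subgroupOf_iff hLN']
    rw [Subgroup.normal_subgroupOf_iff hLN] at hLn
    rintro _ _ ⟨x, hx, rfl⟩ ⟨y, hy, rfl⟩
    refine ⟨y * x * y⁻¹, ?_, by rw [map_mul, map_mul, map_inv]⟩
    exact hLn x y hx hy
  have hLs' : IsSimpleGroup (L.map E.toMonoidHom) :=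
    MulEquiv.isSimpleGroup_congr f |>.1 hLs
  have hp' : p ∣ Nat.card (L.map E.toMonoidHom) := by
    rwa [← Nat.card_congr f.toEquiv]
  have hab' : ∃ a b : L.map E.toMonoidHom, a * b ≠ b * a := by
    obtain ⟨a, b, hne⟩ := hab
    refine ⟨f a, f b, fun h1 => hne ?_⟩
    apply f.injective
    rw [map_mul, map_mul, h1]
  exact KCF_cov f (KCF_old hp2 (h (K.map e.toMonoidHom) (N.map E.toMonoidHom) (L.map E.toMonoidHom)
    hN' hLN' hLn' hLs' hp' hab'))

theorem prf_KCF : KCF := by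
  intro hM p k _ _ _ hp G _ _ P hP hgen hfac
  have h1 := hM p k hp G P [] hP hgen (fun hp2 => ?_) (by simp) (by simp)
  · simpa using h1
  · unfold KnownPieces
    rw [eq_top_iff]
    refine le_sSup (Or.inr (Or.inr ⟨Or.inl ?_, P, le_rfl, ?_⟩))
    · exact KCF_fac hp2 (Subgroup.topEquiv) hfac
    · refine ⟨le_top, ?_⟩
      refine Eq.trans ?_ hgen
      rw [Subgroup.normalClosure]
      congr 1
      ext g
      simp only [Set.mem_setOf_eq, Group.mem_conjugatesOfSet_iff, isConj_iff]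
      constructor
      · rintro ⟨x, -, q, hq, rfl⟩
        exact ⟨q, hq, x, rfl⟩
      · rintro ⟨q, hq, x, rfl⟩
        exact ⟨x, trivial, q, hq, rfl⟩

end MP7b0bad.KP
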