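import Pool.Agent.Work.MP_7b0bad_ag.FA.KP
import Pool.Agent.Work.MP_7b0bad_ag.Bd.B11

set_option autoImplicit false

/-!
# Item KGen: the hand-in `Generation` is a special case of `KnownPieces`
-/

namespace MP7b0bad.KP

open MP7b0bad

/-- a nonabelian simple group of order divisible by `p` is not `p`-solvable -/
theorem KGen_simple {p : ℕ} (hp : p.Prime) {L : Type} [Group L] [Finite L] (hS : IsSimpleGroup L)
    (hd : p ∣ Nat.card L) (hab : ∃ a b : L, a * b ≠ b * a) (h : PSol p L) : False := by
  have : Fact p.Prime := ⟨hp⟩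
  obtain ⟨M, hM, hlt, hi⟩ := h ⊥ inferInstance bot_ne_top
  have hMt : M = ⊤ := (hM.eq_bot_or_eq_top).resolve_left hlt.ne'
  rw [hMt, Subgroup.relIndex_top_right, Subgroup.index_bot] at hi
  rcases hi with ⟨n, hn⟩ | hi
  · have hpg : IsPGroup p L := IsPGroup.of_card hn
    have hnt : Nontrivial (Subgroup.center L) := hpg.center_nontrivial
    have hc : Subgroup.center L = ⊤ := by
      rcases (inferInstance : (Subgroup.center L).Normal).eq_bot_or_eq_top with h1 | h1
      · rw [h1] at hnt
        exact absurd hnt (not_nontrivial _)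
      · exact h1
    obtain ⟨a, b, hne⟩ := hab
    have ha : b ∈ Subgroup.center L := by rw [hc]; trivial
    exact hne ((Subgroup.mem_center_iff.1 ha a))
  · exact hi hd

theorem KGen_fc {p : ℕ} (hp : p.Prime) {Y : Type} [Group Y] [Finite Y] (h : PSolvable p Y) :
    FactorsCovered p Y := by
  intro K _ N L _ _ _ hS hd hab
  have h1 : PSol p Y := h
  have h2 : PSol p (Y ⧸ K) := GPS_quot h1 K
  have h3 : PSol p L := GPS_sub hp h2 L
  exact (KGen_simple hp hS hd hab h3).elim

theorem prf_KGen : KGen := by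
  intro hMain p k _ _ _ hp G _ _ P hP hN hY
  have h := hMain p k hp G P [] hP hN (fun _ => ?_) (by simp) (by simp)
  · simpa using h
  · unfold KnownPieces
    rw [eq_top_iff, ← hY]
    refine sSup_le_sSup ?_
    rintro Y (h1 | h1 | ⟨h1, Q, hQ, hQY, hc⟩)
    · exact Or.inl h1
    · exact Or.inr (Or.inl h1)
    · exact Or.inr (Or.inr ⟨Or.inl (KGen_fc hp h1), Q, hQ, hQY, hc⟩)

end MP7b0bad.KP
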