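import Pool.Agent.Work.MP_7b0bad_ag.FA.Stmts

set_option autoImplicit false

/-!
# The statement of the hand-in `KnownPieces`, and the statements of the three hand-ins it replaces
-/

namespace MP7b0bad.KP

/-- the extension `L` of `k(x)` is unramified outside infinity -/
def Unr (k : Type) [Field k] (L : Type) [Field L] [Algebra (RatFunc k) L] : Prop :=
  ∀ A : ValuationSubring L,
    (∀ c : k, algebraMap (RatFunc k) L (algebraMap k (RatFunc k) c) ∈ A) →
    algebraMap (RatFunc k) L RatFunc.X ∈ A →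
    ValuationSubring.inertiaSubgroup (RatFunc k) A = ⊥

/-- `I` is an inertia group of `L` over infinity -/
def InertiaAt (k : Type) [Field k] (L : Type) [Field L] [Algebra (RatFunc k) L]
    (I : Subgroup (L ≃ₐ[RatFunc k] L)) : Prop :=
  ∃ A : ValuationSubring L,
    (∀ c : k, algebraMap (RatFunc k) L (algebraMap k (RatFunc k) c) ∈ A) ∧
    algebraMap (RatFunc k) L RatFunc.X ∉ A ∧
    (ValuationSubring.inertiaSubgroup (RatFunc k) A).map
        (ValuationSubring.decompositionSubgroup (RatFunc k) A).subtype = I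

/-- `G₀` is an inertia group over infinity of a `G`-Galois cover of the line over `k` unramified
outside infinity (the existence statement of the frozen statement `S00269`). -/
def Occ (k : Type) [Field k] (G : Type) [Group G] (G₀ : Subgroup G) : Prop :=
  ∃ (L : Type) (_ : Field L) (_ : Algebra (RatFunc k) L),
    FiniteDimensional (RatFunc k) L ∧ IsGalois (RatFunc k) L ∧
    ∃ φ : G ≃* (L ≃ₐ[RatFunc k] L), Unr k L ∧ InertiaAt k L (G₀.map φ.toMonoidHom)

/-- For every automorphism `φ ≠ 1` of `L` with `φ ^ p = 1` the group `L` is generated by the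
elements fixed by `φ` and the `φ`-invariant subgroups of order prime to `p`. -/
def InvariantGeneration (p : ℕ) (L : Type) [Group L] : Prop :=
  ∀ φ : L ≃* L, (∀ x, φ^[p] x = x) → (∃ x, φ x ≠ x) →
    Subgroup.closure {x : L | φ x = x ∨ ∃ A : Subgroup L, ¬ p ∣ Nat.card A ∧
      (∀ a ∈ A, φ a ∈ A) ∧ x ∈ A} = ⊤

/-- Covered simple groups: alternating groups, `PSL_2(F)` with `p ∣ |F| (|F| - 1)`, and groups with
`InvariantGeneration` (for example all groups of order prime to `p`). -/
def Covered (p : ℕ) (L : Type) [Group L] : Prop :=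
  InvariantGeneration p L ∨ (∃ n : ℕ, 5 ≤ n ∧ Nonempty (L ≃* alternatingGroup (Fin n))) ∨
  ∃ (F : Type) (_ : Field F) (_ : Finite F), p ∣ Nat.card F * (Nat.card F - 1) ∧
    Nonempty (L ≃* Matrix.ProjectiveSpecialLinearGroup (Fin 2) F)

/-- all nonabelian composition factors of `Y` of order divisible by `p` are covered -/
def FactorsCovered (p : ℕ) (Y : Type) [Group Y] : Prop :=
  ∀ (K : Subgroup Y) [K.Normal] (N L : Subgroup (Y ⧸ K)), N.Normal → L ≤ N →
    (L.subgroupOf N).Normal → IsSimpleGroup L → p ∣ Nat.card L →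
    (∃ a b : L, a * b ≠ b * a) → Covered p L

/-- `Y` is `SL_n(F)` or `PSL_n(F)` and `p` divides `|F|` or `|F|^i - 1` for some `0 < i < n` -/
def Linear (p : ℕ) (Y : Type) [Group Y] : Prop :=
  ∃ (F : Type) (_ : Field F) (_ : Finite F) (n i : ℕ), 0 < i ∧ i < n ∧
    (p ∣ Nat.card F ∨ p ∣ Nat.card F ^ i - 1) ∧
    (Nonempty (Y ≃* Matrix.SpecialLinearGroup (Fin n) F) ∨
      Nonempty (Y ≃* Matrix.ProjectiveSpecialLinearGroup (Fin n) F))

/-- `Y` is generated by the `Y`-conjugates of its subgroup `Q` -/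
def ConjGen {G : Type} [Group G] (Q Y : Subgroup G) : Prop :=
  Q ≤ Y ∧ Subgroup.closure {g | ∃ x ∈ Y, ∃ q ∈ Q, g = x * q * x⁻¹} = Y

/-- `G` is generated by the normaliser of `P`, the subgroups of order prime to `p` normalised by
`P`, and the subgroups `Y` that are generated by the `Y`-conjugates of a subgroup of `P` and for
which `FactorsCovered` or `Linear` holds (`Y = G` is allowed). -/
def KnownPieces (p : ℕ) {G : Type} [Group G] (P : Subgroup G) : Prop :=
  sSup {Y : Subgroup G | Y ≤ Subgroup.normalizer (P : Set G) ∨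
    (¬ p ∣ Nat.card Y ∧ P ≤ Subgroup.normalizer (Y : Set G)) ∨
    ((FactorsCovered p Y ∨ Linear p Y) ∧ ∃ Q : Subgroup G, Q ≤ P ∧ ConjGen Q Y)} = ⊤

/-- `c` has order prime to `p` and normalises `P`, and there are `Q ≤ P`, normalised by `c`, and
`H ≤ G` containing `Q` and `c` such that `H` is solvable and generated by the `H`-conjugates of `Q`,
or `Q ⟨c⟩` is an inertia group for `H`. -/
def TamePiece (k : Type) [Field k] (p : ℕ) {G : Type} [Group G] (P : Subgroup G) (c : G) : Prop :=
  ¬ p ∣ orderOf c ∧ (∀ g ∈ P, c * g * c⁻¹ ∈ P) ∧ ∃ Q H : Subgroup G, Q ≤ P ∧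
    (∀ g ∈ Q, c * g * c⁻¹ ∈ Q) ∧ Q ⊔ Subgroup.zpowers c ≤ H ∧
    ((Group.IsSolvable H ∧ ConjGen Q H) ∨ Occ k H ((Q ⊔ Subgroup.zpowers c).subgroupOf H))

/-- the statement of `KnownPieces.result` -/
def Main : Prop :=
    ∀ (p : ℕ) (k : Type) [Field k] [IsAlgClosed k] [CharP k p], p.Prime →
    ∀ (G : Type) [Group G] [Finite G] (P : Subgroup G) (c : List G), IsPGroup p P →
      Subgroup.normalClosure (P : Set G) = ⊤ → (p ≠ 2 → KnownPieces p P) →
      (∀ x ∈ c, ∀ y ∈ c, x * y = y * x) → (∀ x ∈ c, TamePiece k p P x) →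
      Occ k G (P ⊔ Subgroup.zpowers c.prod)

/-- the statement of `PurelyWildChar2.result` -/
def OldPW : Prop := ∀ (k : Type) [Field k] [IsAlgClosed k] [CharP k 2],
    ∀ (G : Type) [Group G] [Finite G] (P : Subgroup G), IsPGroup 2 P →
      Subgroup.normalClosure (P : Set G) = ⊤ → Occ k G P

/-- `CompositionFactors.Covered` -/
def OldCovered (p : ℕ) (L : Type) [Group L] : Prop :=
  InvariantGeneration p L ∨
  (p ≤ 3 ∧ ∃ n : ℕ, 5 ≤ n ∧ Nonempty (L ≃* alternatingGroup (Fin n))) ∨
  (p ≠ 2 ∧ ∃ (F : Type) (_ : Field F) (_ : Finite F), p ∣ Nat.card F - 1 ∧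
    Nonempty (L ≃* Matrix.ProjectiveSpecialLinearGroup (Fin 2) F)) ∨
  (p = 2 ∧ ∀ φ : L ≃* L, (∀ x, φ (φ x) = x) → ∀ x : L, orderOf x = 4 → φ x ≠ x⁻¹)

/-- the statement of `CompositionFactors.result` -/
def OldCF : Prop := ∀ (p : ℕ) (k : Type) [Field k] [IsAlgClosed k] [CharP k p], p.Prime →
    ∀ (G : Type) [Group G] [Finite G] (P : Subgroup G), IsPGroup p P →
      Subgroup.normalClosure (P : Set G) = ⊤ →
      (∀ (K : Subgroup G) [K.Normal] (N L : Subgroup (G ⧸ K)), N.Normal → L ≤ N →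
        (L.subgroupOf N).Normal → IsSimpleGroup L → p ∣ Nat.card L →
        (∃ a b : L, a * b ≠ b * a) → OldCovered p L) → Occ k G P

/-- `Generation.PSolvable` -/
def PSolvable (p : ℕ) (G : Type) [Group G] : Prop :=
  ∀ N : Subgroup G, N.Normal → N ≠ ⊤ → ∃ M : Subgroup G, M.Normal ∧ N < M ∧
    ((∃ n : ℕ, N.relIndex M = p ^ n) ∨ ¬ p ∣ N.relIndex M)

/-- the statement of `Generation.result` -/
def OldGen : Prop := ∀ (p : ℕ) (k : Type) [Field k] [IsAlgClosed k] [CharP k p], p.Prime →
    ∀ (G : Type) [Group G] [Finite G] (P : Subgroup G), IsPGroup p P →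
      Subgroup.normalClosure (P : Set G) = ⊤ →
      sSup {Y : Subgroup G | Y ≤ Subgroup.normalizer (P : Set G) ∨
        (¬ p ∣ Nat.card Y ∧ P ≤ Subgroup.normalizer (Y : Set G)) ∨
        (PSolvable p Y ∧ ∃ Q : Subgroup G, Q ≤ P ∧ Q ≤ Y ∧
          Subgroup.closure {g | ∃ x ∈ Y, ∃ q ∈ Q, g = x * q * x⁻¹} = Y)} = ⊤ → Occ k G P

/-- [KPW] `PurelyWildChar2` is a special case (`p = 2`, `c = []`) -/
def KPW : Prop := Main → OldPW

/-- [KCF] `CompositionFactors` is a special case: `c = []`; for odd `p` take `Y = ⊤`, `Q = P`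
(`FactorsCovered p ⊤` from the hypothesis for `G ≃* ⊤`; `p ∣ |F| - 1` implies
`p ∣ |F| (|F| - 1)`). -/
def KCF : Prop := Main → OldCF

/-- [KGen] `Generation` is a special case: `c = []`, the same subgroups `Y`; a `p`-solvable group `Y`
satisfies `FactorsCovered` because it has no nonabelian composition factor of order divisible by `p`
(quotients, subgroups of `p`-solvable groups are `p`-solvable, see the lemmas on `MP7b0bad.PSol` in
`Bd`; a simple `p`-solvable group of order divisible by `p` is a simple `p`-group, so abelian). -/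
def KGen : Prop := Main → OldGen

end MP7b0bad.KP
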