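import Pool.Agent.Work.MP_7b0bad_ag.FA.KP

set_option autoImplicit false

/-!
Item KPW: `PurelyWildChar2` is a special case of `KnownPieces`.
-/

namespace MP7b0bad.KP

theorem prf_KPW : KPW := by
  intro hM k _ _ _ G _ _ P hP hn
  have h := hM 2 k Nat.prime_two G P [] hP hn (fun h => absurd rfl h)
    (fun x hx => absurd hx List.not_mem_nil) (fun x hx => absurd hx List.not_mem_nil)
  rwa [List.prod_nil, Subgroup.zpowers_one_eq_bot, sup_bot_eq] at h

end MP7b0bad.KP
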