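import Pool.Agent.Work.MP_7b0bad_ag.SL.Stmts
import Pool.Agent.Work.MP_7b0bad_ag.MT.GStmts

set_option autoImplicit false

/-!
# Block FA: the final theorem on groups with known pieces, statements
-/

namespace MP7b0bad.FA

/-- covered simple groups -/
def Cov (p : ℕ) (L : Type) [Group L] : Prop :=
  InvGen p L ∨ (∃ n : ℕ, 5 ≤ n ∧ Nonempty (L ≃* alternatingGroup (Fin n))) ∨
  ∃ (F : Type) (_ : Field F) (_ : Finite F), p ∣ Nat.card F * (Nat.card F - 1) ∧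
    Nonempty (L ≃* Matrix.ProjectiveSpecialLinearGroup (Fin 2) F)

/-- special linear groups -/
def Lin (p : ℕ) (Y : Type) [Group Y] : Prop :=
  ∃ (F : Type) (_ : Field F) (_ : Finite F) (n i : ℕ), 0 < i ∧ i < n ∧
    (p ∣ Nat.card F ∨ p ∣ Nat.card F ^ i - 1) ∧
    (Nonempty (Y ≃* Matrix.SpecialLinearGroup (Fin n) F) ∨
      Nonempty (Y ≃* Matrix.ProjectiveSpecialLinearGroup (Fin n) F))

/-- [FWild] extension of `MW.WFin` by the simple groups `PSL_2(F)`, `F` of characteristic `p`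
(`SL.PSStar`), in terms of `Rel` -/
def FWild : Prop := ∀ (p : ℕ) [Fact p.Prime] (k : Type) [Field k] [IsAlgClosed k] [CharP k p]
  (G : Type) [Group G] [Finite G] (P : Subgroup G), IsPGroup p P →
  Subgroup.normalClosure (P : Set G) = ⊤ → (p ≠ 2 → CFac p (fun L _ => Cov p L) G) → Rel k G P

/-- [FGen] (hWild : FWild) generation by known pieces -/
def FGen : Prop := ∀ (p : ℕ) [Fact p.Prime] (k : Type) [Field k] [IsAlgClosed k] [CharP k p]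
  (G : Type) [Group G] [Finite G] (P : Subgroup G), IsPGroup p P →
  Subgroup.normalClosure (P : Set G) = ⊤ →
  sSup {Y : Subgroup G | Y ≤ Subgroup.normalizer (P : Set G) ∨
    (¬ p ∣ Nat.card Y ∧ P ≤ Subgroup.normalizer (Y : Set G)) ∨
    ((p = 2 ∨ PSol p Y ∨ CFac p (fun L _ => Cov p L) Y ∨ Lin p Y) ∧
      ∃ Q : Subgroup G, Q ≤ P ∧ Q ≤ Y ∧ nclIn Y Q = Y)} = ⊤ → Rel k G P

/-- [FTame] (hGen : FGen, hMRz : MT.MRz, hMFam : MT.MFam, hMSolv : MT.MSolv) with tame inertia -/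
def FTame : Prop := ∀ (p : ℕ) [Fact p.Prime] (k : Type) [Field k] [IsAlgClosed k] [CharP k p]
  (G : Type) [Group G] [Finite G] (P : Subgroup G) (c : List G), IsPGroup p P →
  Subgroup.normalClosure (P : Set G) = ⊤ →
  sSup {Y : Subgroup G | Y ≤ Subgroup.normalizer (P : Set G) ∨
    (¬ p ∣ Nat.card Y ∧ P ≤ Subgroup.normalizer (Y : Set G)) ∨
    ((p = 2 ∨ PSol p Y ∨ CFac p (fun L _ => Cov p L) Y ∨ Lin p Y) ∧
      ∃ Q : Subgroup G, Q ≤ P ∧ Q ≤ Y ∧ nclIn Y Q = Y)} = ⊤ →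
  (∀ x ∈ c, ∀ y ∈ c, x * y = y * x) →
  (∀ x ∈ c, ¬ p ∣ orderOf x ∧ (∀ g ∈ P, x * g * x⁻¹ ∈ P) ∧ ∃ Q H : Subgroup G, Q ≤ P ∧
    (∀ g ∈ Q, x * g * x⁻¹ ∈ Q) ∧ Q ⊔ Subgroup.zpowers x ≤ H ∧
    ((Group.IsSolvable H ∧ nclIn H Q = H) ∨
      Rel k H ((Q ⊔ Subgroup.zpowers x).subgroupOf H))) →
  Rel k G (P ⊔ Subgroup.zpowers c.prod)

end MP7b0bad.FA
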